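import Pool.Agent.helper14.AV.Spec

/-!
# BSU: the tree of cells
-/

set_option autoImplicit false

namespace Pool.Agent.helper14.AV

theorem BSU_zero (ι : Type) [DecidableEq ι] (side : ι → ι → Bool) : Part ι side ∅ := by
  refine ⟨Unit, inferInstance, ⊥, fun _ => s((), ()), fun _ => ∅, fun _ _ => true, fun _ => (),
    ?_, ?_, ?_, ?_, ?_, ?_, ?_, ?_, ?_⟩
  · exact { preconnected := fun a b => by
              rw [Subsingleton.elim a b]
            nonempty := ⟨()⟩ }
  · simp
  · intro a ha
    exact absurd ha (by simp)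
  · simp
  · intro c
    simp
  · intro i hi
    exact absurd hi (Finset.notMem_empty i)
  · intro c j hj
    exact absurd hj (Finset.notMem_empty j)
  · intro c c' h
    exact absurd (Subsingleton.elim c c') h
  · intro x _ u hu
    exact absurd hu (Finset.notMem_empty u)

theorem BSU_card (ι : Type) [DecidableEq ι] (side : ι → ι → Bool) (U : Finset ι)
    (v : ι) (hv : v ∈ U) :
    (U.filter fun j => j ≠ v ∧ side v j = true).card +
      (U.filter fun j => j ≠ v ∧ side v j = false).card + 1 = U.card := by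
  have e1 : (U.filter fun j => j ≠ v ∧ side v j = true) =
      (U.erase v).filter (fun j => side v j = true) := by
    ext j
    rw [Finset.mem_filter, Finset.mem_filter, Finset.mem_erase]
    tauto
  have e2 : (U.filter fun j => j ≠ v ∧ side v j = false) =
      (U.erase v).filter (fun j => ¬ side v j = true) := by
    ext j
    rw [Finset.mem_filter, Finset.mem_filter, Finset.mem_erase, Bool.not_eq_true]
    tauto
  rw [e1, e2, Finset.card_filter_add_card_filter_not, Finset.card_erase_of_mem hv]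
  have := Finset.card_pos.2 ⟨v, hv⟩
  omega

theorem BSU_step (hJOI : JOI_stmt) (ι : Type) [DecidableEq ι] (side : ι → ι → Bool) (U : Finset ι)
    (v : ι) (hv : v ∈ U) (hL : Part ι side (U.filter fun j => j ≠ v ∧ side v j = true))
    (hR : Part ι side (U.filter fun j => j ≠ v ∧ side v j = false)) : Part ι side U := by
  have hcard := BSU_card ι side U v hv
  obtain ⟨VL, fL, TL, eL, aL, tL, lL, L1, L2, L3, L4, L5, L6, L7, L8, L9⟩ := hL
  obtain ⟨VR, fR, TR, eR, aR, tR, lR, R1, R2, R3, R4, R5, R6, R7, R8, R9⟩ := hR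
  obtain ⟨K, hK, hE⟩ := hJOI VL VR TL TR (lL v) (lR v) L1 R1
  have hvL : v ∉ U.filter (fun j => j ≠ v ∧ side v j = true) := by simp
  have hvR : v ∉ U.filter (fun j => j ≠ v ∧ side v j = false) := by simp
  have haL : ∀ c, ∀ u ∈ aL c, u ∈ U ∧ u ≠ v := by
    intro c u hu
    have := Finset.mem_filter.1 (L5 c hu)
    exact ⟨this.1, this.2.1⟩
  have haR : ∀ c, ∀ u ∈ aR c, u ∈ U ∧ u ≠ v := by
    intro c u hu
    have := Finset.mem_filter.1 (R5 c hu)
    exact ⟨this.1, this.2.1⟩
  obtain ⟨e, ev, eT, eF⟩ : ∃ e : ι → Sym2 (VL ⊕ VR), e v = s(Sum.inl (lL v), Sum.inr (lR v)) ∧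
      (∀ i, i ≠ v → side v i = true → e i = (eL i).map Sum.inl) ∧
      (∀ i, i ≠ v → side v i = false → e i = (eR i).map Sum.inr) := by
    refine ⟨fun i => if i = v then s(Sum.inl (lL v), Sum.inr (lR v)) else
      if side v i = true then (eL i).map Sum.inl else (eR i).map Sum.inr, ?_, ?_, ?_⟩
    · simp
    · intro i h1 h2
      simp [h1, h2]
    · intro i h1 h2
      simp [h1, h2]
  have tri : ∀ i ∈ U, i = v ∨
      (i ≠ v ∧ side v i = true ∧ i ∈ U.filter (fun j => j ≠ v ∧ side v j = true)) ∨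
      (i ≠ v ∧ side v i = false ∧ i ∈ U.filter (fun j => j ≠ v ∧ side v j = false)) := by
    intro i hi
    rcases eq_or_ne i v with h | h
    · exact Or.inl h
    · cases hs : side v i with
      | true => exact Or.inr (Or.inl ⟨h, rfl, Finset.mem_filter.2 ⟨hi, h, hs⟩⟩)
      | false => exact Or.inr (Or.inr ⟨h, rfl, Finset.mem_filter.2 ⟨hi, h, hs⟩⟩)
  have noLR : ∀ (z : Sym2 VL) (z' : Sym2 VR), z.map Sum.inl ≠ z'.map (Sum.inr : VR → VL ⊕ VR) := by
    intro z z' h
    induction z with
    | h a b =>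
      have h1 : (Sum.inl a : VL ⊕ VR) ∈ z'.map (Sum.inr : VR → VL ⊕ VR) := by
        rw [← h]
        exact Sym2.mem_map.2 ⟨a, Sym2.mem_mk_left a b, rfl⟩
      obtain ⟨c, _, hc⟩ := Sym2.mem_map.1 h1
      exact Sum.inr_ne_inl hc
  have nov1 : ∀ z : Sym2 VL, s(Sum.inl (lL v), Sum.inr (lR v)) ≠ z.map (Sum.inl : VL → VL ⊕ VR) := by
    intro z h
    have h1 : (Sum.inr (lR v) : VL ⊕ VR) ∈ z.map (Sum.inl : VL → VL ⊕ VR) := by
      rw [← h]
      exact Sym2.mem_mk_right _ _
    obtain ⟨c, _, hc⟩ := Sym2.mem_map.1 h1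
    exact Sum.inl_ne_inr hc
  have nov2 : ∀ z : Sym2 VR, s(Sum.inl (lL v), Sum.inr (lR v)) ≠ z.map (Sum.inr : VR → VL ⊕ VR) := by
    intro z h
    have h1 : (Sum.inl (lL v) : VL ⊕ VR) ∈ z.map (Sum.inr : VR → VL ⊕ VR) := by
      rw [← h]
      exact Sym2.mem_mk_left _ _
    obtain ⟨c, _, hc⟩ := Sym2.mem_map.1 h1
    exact Sum.inr_ne_inl hc
  refine ⟨VL ⊕ VR, inferInstance, K, e,
    Sum.elim (fun c => insert v (aL c)) (fun c => insert v (aR c)),
    Sum.elim (fun c u => if u = v then true else tL c u) (fun c u => if u = v then false else tR c u),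
    fun x => if side v x = true then Sum.inl (lL x) else Sum.inr (lR x),
    hK, ?_, ?_, ?_, ?_, ?_, ?_, ?_, ?_⟩
  · rw [Fintype.card_sum, L2, R2]
    omega
  · intro i hi j hj hij
    rcases tri i hi with rfl | ⟨i1, i2, i3⟩ | ⟨i1, i2, i3⟩
    · rcases tri j hj with h | ⟨j1, j2, j3⟩ | ⟨j1, j2, j3⟩
      · exact h.symm
      · rw [ev, eT j j1 j2] at hij
        exact absurd hij (nov1 _)
      · rw [ev, eF j j1 j2] at hij
        exact absurd hij (nov2 _)
    · rcases tri j hj with h | ⟨j1, j2, j3⟩ | ⟨j1, j2, j3⟩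
      · rw [h, ev, eT i i1 i2] at hij
        exact absurd hij.symm (nov1 _)
      · rw [eT i i1 i2, eT j j1 j2] at hij
        exact L3 i3 j3 (Sym2.map.injective Sum.inl_injective hij)
      · rw [eT i i1 i2, eF j j1 j2] at hij
        exact absurd hij (noLR _ _)
    · rcases tri j hj with h | ⟨j1, j2, j3⟩ | ⟨j1, j2, j3⟩
      · rw [h, ev, eF i i1 i2] at hij
        exact absurd hij.symm (nov2 _)
      · rw [eF i i1 i2, eT j j1 j2] at hij
        exact absurd hij.symm (noLR _ _)
      · rw [eF i i1 i2, eF j j1 j2] at hij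
        exact R3 i3 j3 (Sym2.map.injective Sum.inr_injective hij)
  · rw [hE, ← L4, ← R4]
    ext z
    constructor
    · rintro ⟨i, hi, rfl⟩
      rcases tri i hi with rfl | ⟨i1, i2, i3⟩ | ⟨i1, i2, i3⟩
      · right
        exact ev
      · left
        left
        exact ⟨eL i, ⟨i, i3, rfl⟩, (eT i i1 i2).symm⟩
      · left
        right
        exact ⟨eR i, ⟨i, i3, rfl⟩, (eF i i1 i2).symm⟩
    · rintro ((⟨_, ⟨i, hi, rfl⟩, rfl⟩ | ⟨_, ⟨i, hi, rfl⟩, rfl⟩) | h)
      · have := Finset.mem_filter.1 hi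
        exact ⟨i, this.1, eT i this.2.1 this.2.2⟩
      · have := Finset.mem_filter.1 hi
        exact ⟨i, this.1, eF i this.2.1 this.2.2⟩
      · exact ⟨v, hv, ev.trans h.symm⟩
  · rintro (c | c)
    · intro u hu
      rcases Finset.mem_insert.1 hu with rfl | h
      · exact hv
      · exact (haL c u h).1
    · intro u hu
      rcases Finset.mem_insert.1 hu with rfl | h
      · exact hv
      · exact (haR c u h).1
  · intro i hi c hc
    rcases tri i hi with rfl | ⟨i1, i2, i3⟩ | ⟨i1, i2, i3⟩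
    · rw [ev, Sym2.mem_iff] at hc
      rcases hc with rfl | rfl
      · refine ⟨Finset.mem_insert_self _ _, ?_⟩
        intro u hu hne
        have hu' : u ∈ aL (lL i) := (Finset.mem_insert.1 hu).resolve_left hne
        have := L9 i hvL u hu'
        rw [this]
        simp [hne]
      · refine ⟨Finset.mem_insert_self _ _, ?_⟩
        intro u hu hne
        have hu' : u ∈ aR (lR i) := (Finset.mem_insert.1 hu).resolve_left hne
        have := R9 i hvR u hu'
        rw [this]
        simp [hne]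
    · rw [eT i i1 i2] at hc
      obtain ⟨c', hc', rfl⟩ := Sym2.mem_map.1 hc
      obtain ⟨h1, h2⟩ := L6 i i3 c' hc'
      refine ⟨Finset.mem_insert_of_mem h1, ?_⟩
      intro u hu hne
      rcases Finset.mem_insert.1 hu with rfl | h
      · simp [i2]
      · rw [h2 u h hne]
        simp [(haL c' u h).2]
    · rw [eF i i1 i2] at hc
      obtain ⟨c', hc', rfl⟩ := Sym2.mem_map.1 hc
      obtain ⟨h1, h2⟩ := R6 i i3 c' hc'
      refine ⟨Finset.mem_insert_of_mem h1, ?_⟩
      intro u hu hne
      rcases Finset.mem_insert.1 hu with rfl | h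
      · simp [i2]
      · rw [h2 u h hne]
        simp [(haR c' u h).2]
  · rintro (c | c) j hj
    · rcases tri j hj with rfl | ⟨i1, i2, i3⟩ | ⟨i1, i2, i3⟩
      · exact ⟨j, Finset.mem_insert_self _ _, Or.inl rfl⟩
      · obtain ⟨u, hu, h⟩ := L7 c j i3
        refine ⟨u, Finset.mem_insert_of_mem hu, h.imp id fun h' => ?_⟩
        simpa [(haL c u hu).2] using h'
      · exact ⟨v, Finset.mem_insert_self _ _, Or.inr (by simp [i2])⟩
    · rcases tri j hj with rfl | ⟨i1, i2, i3⟩ | ⟨i1, i2, i3⟩
      · exact ⟨j, Finset.mem_insert_self _ _, Or.inl rfl⟩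
      · exact ⟨v, Finset.mem_insert_self _ _, Or.inr (by simp [i2])⟩
      · obtain ⟨u, hu, h⟩ := R7 c j i3
        refine ⟨u, Finset.mem_insert_of_mem hu, h.imp id fun h' => ?_⟩
        simpa [(haR c u hu).2] using h'
  · rintro (c | c) (c' | c') hne
    · obtain ⟨u, h1, h2, h3⟩ := L8 c c' (fun h => hne (by rw [h]))
      refine ⟨u, Finset.mem_insert_of_mem h1, Finset.mem_insert_of_mem h2, ?_⟩
      simpa [(haL c u h1).2] using h3
    · exact ⟨v, Finset.mem_insert_self _ _, Finset.mem_insert_self _ _, by simp⟩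
    · exact ⟨v, Finset.mem_insert_self _ _, Finset.mem_insert_self _ _, by simp⟩
    · obtain ⟨u, h1, h2, h3⟩ := R8 c c' (fun h => hne (by rw [h]))
      refine ⟨u, Finset.mem_insert_of_mem h1, Finset.mem_insert_of_mem h2, ?_⟩
      simpa [(haR c u h1).2] using h3
  · intro x hx u hu
    cases hs : side v x with
    | true =>
      simp only [hs, if_true, Sum.elim_inl] at hu ⊢
      rcases Finset.mem_insert.1 hu with rfl | h
      · simp [hs]
      · rw [L9 x (fun h' => hx (Finset.mem_filter.1 h').1) u h]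
        simp [(haL _ u h).2]
    | false =>
      simp only [hs, Sum.elim_inr, Bool.false_eq_true, if_false] at hu ⊢
      rcases Finset.mem_insert.1 hu with rfl | h
      · simp [hs]
      · rw [R9 x (fun h' => hx (Finset.mem_filter.1 h').1) u h]
        simp [(haR _ u h).2]

theorem BSU (hJOI : JOI_stmt) : BSU_stmt := by
  intro ι _ side U
  induction hn : U.card using Nat.strong_induction_on generalizing U with
  | _ n ih =>
    rcases U.eq_empty_or_nonempty with rfl | ⟨v, hv⟩
    · exact BSU_zero ι side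
    · have hcard := BSU_card ι side U v hv
      exact BSU_step hJOI ι side U v hv (ih _ (by omega) _ rfl) (ih _ (by omega) _ rfl)

end Pool.Agent.helper14.AV
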