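import Pool.Agent.helper14.AV.Spec3

/-!
# SWP: exchanging the ends of some segments
-/

set_option autoImplicit false

namespace Pool.Agent.helper14.AV

theorem SWP_or (b : Bool) (x y a d : ℝ × ℝ)
    (h : (x = (if b then a else d) ∧ y = (if b then d else a)) ∨
      (x = (if b then d else a) ∧ y = (if b then a else d))) :
    (x = a ∧ y = d) ∨ (x = d ∧ y = a) := by
  cases b with
  | true => simpa using h
  | false => simpa [or_comm] using h

theorem SWP : SWP_stmt := by
  intro n A B c k
  constructor
  · rintro ⟨s, v, hinj, h, hs⟩
    refine ⟨s, v, hinj, fun i => ?_, hs⟩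
    exact SWP_or (c (s i)) _ _ _ _ (h i)
  · rintro ⟨s, v, hinj, h, hs, hd⟩
    refine ⟨s, v, hinj, fun i => ?_, hs, ?_⟩
    · exact SWP_or (c (s i)) _ _ _ _ (h i)
    · intro i hi j
      have h1 := hd i hi j
      cases hc : c j with
      | true =>
        simp only [hc, if_true] at h1
        exact h1
      | false =>
        simp only [hc, Bool.false_eq_true, if_false] at h1
        rw [segment_symm]
        exact h1

end Pool.Agent.helper14.AV
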